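import Pool.Agent.BEN.StmtsB

set_option autoImplicit false

namespace Pool.Agent.BEN.H17

open Set Filter Topology MeasureTheory
open scoped InnerProductSpace ENNReal
open Pool.Agent.BEN

theorem lpb : LpbStmt := by
  intro p ν K V hp hpν hK hV
  have hp0 : 0 < p := by linarith
  have hd : 0 < ν - p := by linarith
  obtain ⟨A, hA⟩ : ∃ A : ℝ, A = V + p * (K / (ν - p)) := ⟨_, rfl⟩
  have hA0 : 0 ≤ A := by rw [hA]; positivity
  refine ⟨(A + 1) ^ (1 / p), by positivity, ?_⟩
  intro T _ μ _ u C hC hu hV' ht
  have hp' : ENNReal.ofReal p ≠ 0 := by simpa using hp0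
  rw [eLpNorm_eq_lintegral_rpow_enorm_toReal hp' ENNReal.ofReal_ne_top,
    ENNReal.toReal_ofReal hp0.le]
  have e1 : ∫⁻ x, ‖u x‖ₑ ^ p ∂μ = ∫⁻ x, ENNReal.ofReal (|u x| ^ p) ∂μ := by
    refine lintegral_congr fun x => ?_
    rw [← ENNReal.ofReal_rpow_of_nonneg (abs_nonneg _) hp0.le, Real.enorm_eq_ofReal_abs]
  have hmeas : AEMeasurable (fun x => |u x|) μ := hu.aemeasurable.norm
  have e2 := lintegral_rpow_eq_lintegral_meas_lt_mul μ (f := fun x => |u x|)
    (Eventually.of_forall fun x => abs_nonneg _) hmeas hp0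
  have hCp : 0 < C ^ p := Real.rpow_pos_of_pos hC p
  have b1 : ∫⁻ t in Ioc 0 C, μ {a | t < |u a|} * ENNReal.ofReal (t ^ (p - 1)) ≤
      ENNReal.ofReal (V * (C ^ p / p)) := by
    calc ∫⁻ t in Ioc 0 C, μ {a | t < |u a|} * ENNReal.ofReal (t ^ (p - 1))
        ≤ ∫⁻ t in Ioc 0 C, ENNReal.ofReal (V * t ^ (p - 1)) := by
          refine setLIntegral_mono' measurableSet_Ioc fun t ht => ?_
          rw [ENNReal.ofReal_mul hV]
          gcongr
          rw [ENNReal.le_ofReal_iff_toReal_le (measure_ne_top _ _) hV]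
          refine le_trans ?_ hV'
          exact ENNReal.toReal_mono (measure_ne_top _ _) (measure_mono (subset_univ _))
      _ = ENNReal.ofReal (∫ t in Ioc 0 C, V * t ^ (p - 1)) := by
          refine (ofReal_integral_eq_lintegral_ofReal ?_ ?_).symm
          · refine Integrable.const_mul ?_ V
            have := (intervalIntegral.intervalIntegrable_rpow' (a := 0) (b := C)
              (r := p - 1) (by linarith))
            exact (intervalIntegrable_iff_integrableOn_Ioc_of_le hC.le).1 this
          · refine (ae_restrict_iff' measurableSet_Ioc).2 (Eventually.of_forall fun t ht => ?_)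
            exact mul_nonneg hV (Real.rpow_nonneg ht.1.le _)
      _ = ENNReal.ofReal (V * (C ^ p / p)) := by
          rw [← intervalIntegral.integral_of_le hC.le, intervalIntegral.integral_const_mul,
            integral_rpow (Or.inl (by linarith))]
          congr 2
          rw [sub_add_cancel, Real.zero_rpow hp0.ne', sub_zero]
  have b2 : ∫⁻ t in Ioi C, μ {a | t < |u a|} * ENNReal.ofReal (t ^ (p - 1)) ≤
      ENNReal.ofReal (K / (ν - p) * C ^ p) := by
    calc ∫⁻ t in Ioi C, μ {a | t < |u a|} * ENNReal.ofReal (t ^ (p - 1))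
        ≤ ∫⁻ t in Ioi C, ENNReal.ofReal (K * C ^ ν * t ^ (p - 1 - ν)) := by
          refine setLIntegral_mono' measurableSet_Ioi fun t htC => ?_
          have htC' : C < t := htC
          have ht0 : 0 < t := lt_trans hC htC'
          have hb : 0 ≤ K * (C / t) ^ ν := mul_nonneg hK (Real.rpow_nonneg (by positivity) _)
          have e : K * C ^ ν * t ^ (p - 1 - ν) = (K * (C / t) ^ ν) * t ^ (p - 1) := by
            rw [Real.div_rpow hC.le ht0.le, Real.rpow_sub ht0 (p - 1) ν]
            ring
          rw [e, ENNReal.ofReal_mul hb]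
          gcongr
          rw [ENNReal.le_ofReal_iff_toReal_le (measure_ne_top _ _) hb]
          exact ht t htC'.le
      _ = ENNReal.ofReal (∫ t in Ioi C, K * C ^ ν * t ^ (p - 1 - ν)) := by
          refine (ofReal_integral_eq_lintegral_ofReal ?_ ?_).symm
          · exact Integrable.const_mul (integrableOn_Ioi_rpow_of_lt (by linarith) hC) _
          · refine (ae_restrict_iff' measurableSet_Ioi).2 (Eventually.of_forall fun t ht => ?_)
            have ht0 : 0 < t := lt_trans hC ht
            exact mul_nonneg (mul_nonneg hK (Real.rpow_nonneg hC.le _))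
              (Real.rpow_nonneg ht0.le _)
      _ = ENNReal.ofReal (K / (ν - p) * C ^ p) := by
          rw [integral_const_mul, integral_Ioi_rpow_of_lt (by linarith) hC]
          congr 1
          have h1 : p - 1 - ν + 1 = -(ν - p) := by ring
          have h2 : C ^ p = C ^ ν * C ^ (-(ν - p)) := by
            rw [← Real.rpow_add hC]; congr 1; ring
          rw [h1, h2]
          have := hd.ne'
          field_simp
  have key : ∫⁻ x, ‖u x‖ₑ ^ p ∂μ ≤ ENNReal.ofReal (A * C ^ p) := by
    rw [e1, e2, ← Ioc_union_Ioi_eq_Ioi hC.le]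
    calc ENNReal.ofReal p * ∫⁻ t in Ioc 0 C ∪ Ioi C, μ {a | t < |u a|} *
          ENNReal.ofReal (t ^ (p - 1))
        ≤ ENNReal.ofReal p * (ENNReal.ofReal (V * (C ^ p / p)) +
          ENNReal.ofReal (K / (ν - p) * C ^ p)) := by
          gcongr
          exact (lintegral_union_le _ _ _).trans (add_le_add b1 b2)
      _ = ENNReal.ofReal (A * C ^ p) := by
          rw [← ENNReal.ofReal_add (by positivity) (by positivity), ← ENNReal.ofReal_mul hp0.le, hA]
          congr 1
          have := hp0.ne'
          field_simp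
  calc (∫⁻ x, ‖u x‖ₑ ^ p ∂μ) ^ (1 / p) ≤ (ENNReal.ofReal ((A + 1) * C ^ p)) ^ (1 / p) := by
        refine ENNReal.rpow_le_rpow (key.trans (ENNReal.ofReal_le_ofReal ?_)) (by positivity)
        nlinarith
    _ = ENNReal.ofReal ((A + 1) ^ (1 / p) * C) := by
        rw [ENNReal.ofReal_rpow_of_nonneg (by positivity) (by positivity)]
        congr 1
        rw [Real.mul_rpow (by positivity) hCp.le, ← Real.rpow_mul hC.le, mul_one_div_cancel hp0.ne',
          Real.rpow_one]

end Pool.Agent.BEN.H17
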