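import Pool.Agent.BEN.StmtsB

set_option autoImplicit false

namespace Pool.Agent.BEN.H17

open Set Filter Topology MeasureTheory
open scoped InnerProductSpace ENNReal NNReal
open Pool.Agent.BEN Pool.Agent.BE01 Pool.Agent.BEL Pool.Agent.BEF Pool.Agent.BEH

theorem lim_F (a b : ℝ≥0∞) (c : ℝ) (hc : 0 < c)
    (h : ∀ F : ℝ, 0 < F → b ≤ ENNReal.ofReal F → a ≤ ENNReal.ofReal (c * F)) :
    a ≤ ENNReal.ofReal c * b := by
  by_cases hb : b = ∞
  · rw [hb, ENNReal.mul_top (by simpa using hc)]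
    exact le_top
  · refine ENNReal.le_of_forall_pos_le_add fun ε hε _ => ?_
    have hε' : (0 : ℝ) < ε := hε
    have hbn : 0 ≤ b.toReal := ENNReal.toReal_nonneg
    have hpos : 0 < b.toReal + ε / c := by positivity
    have h1 := h (b.toReal + ε / c) hpos (by
      rw [ENNReal.le_ofReal_iff_toReal_le hb hpos.le]
      have : 0 < (ε : ℝ) / c := by positivity
      linarith)
    refine h1.trans (le_of_eq ?_)
    rw [mul_add, mul_div_cancel₀ _ hc.ne', ENNReal.ofReal_add (by positivity) (by positivity),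
      ENNReal.ofReal_mul hc.le, ENNReal.ofReal_toReal hb, ENNReal.ofReal_coe_nnreal]

theorem ae_neg {d : ℕ} (Ω : Set (En d)) (ι : VV Ω →L[ℝ] Lp ℝ 2 (mu Ω)) (G : VV Ω) :
    ∀ᵐ x ∂(mu Ω), ι (-G) x = -(ι G x) := by
  have h : ι (-G) = -(ι G) := map_neg ι G
  rw [h]
  filter_upwards [Lp.coeFn_neg (ι G)] with x hx
  rw [hx]
  rfl

theorem mu_fin' {d : ℕ} {Ω : Set (En d)} (h : Dom Ω) : IsFiniteMeasure (mu Ω) :=
  ⟨by rw [mu, Measure.restrict_apply_univ]; exact h.2.1.measure_lt_top⟩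

theorem mu_real_le {d : ℕ} {Ω Ω' : Set (En d)} (h : Dom Ω) (hs : Ω' ⊆ Ω) :
    (mu Ω').real univ ≤ (volume : Measure (En d)).real Ω := by
  rw [mu, measureReal_restrict_apply_univ]
  exact measureReal_mono hs h.2.1.measure_lt_top.ne

/-- Level set estimates for `G` and `- G`. -/
theorem levels {d : ℕ} {Ω : Set (En d)} {C1 : ℝ} (H : ∀ Ω' : Set (En d), Dom Ω' → Ω' ⊆ Ω →
    ∀ ι : VV Ω' →L[ℝ] Lp ℝ 2 (mu Ω'), Emb2 Ω' ι →
    ∀ (f : Lp ℝ 2 (mu Ω')) (G : VV Ω') (F : ℝ), (∀ G' : VV Ω', ⟪G, G'⟫_ℝ = ⟪f, ι G'⟫_ℝ) →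
    0 ≤ F → ∀ j : ℕ, j + 2 ≤ d → eLpNorm f (qe d (j + 2)) (mu Ω') ≤ ENNReal.ofReal F →
    ∀ k h : ℝ, 0 ≤ k → k < h → (mu Ω').real {x | h < ι G x} ≤
      (C1 * F / (h - k)) ^ pS d *
        (mu Ω').real {x | k < ι G x} ^ ((4 * (d : ℝ) - 4 * j - 3) / (4 * d - 5)))
    {Ω' : Set (En d)} (hΩ' : Dom Ω') (hs : Ω' ⊆ Ω) (ι : VV Ω' →L[ℝ] Lp ℝ 2 (mu Ω'))
    (hι : Emb2 Ω' ι) (f : Lp ℝ 2 (mu Ω')) (G : VV Ω') (F : ℝ)
    (hG : ∀ G' : VV Ω', ⟪G, G'⟫_ℝ = ⟪f, ι G'⟫_ℝ) (hF : 0 ≤ F) (j : ℕ) (hj : j + 2 ≤ d)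
    (hf : eLpNorm f (qe d (j + 2)) (mu Ω') ≤ ENNReal.ofReal F) :
    (∀ k h : ℝ, 0 ≤ k → k < h → (mu Ω').real {x | h < ι G x} ≤
      (C1 * F / (h - k)) ^ pS d *
        (mu Ω').real {x | k < ι G x} ^ ((4 * (d : ℝ) - 4 * j - 3) / (4 * d - 5))) ∧
    (∀ k h : ℝ, 0 ≤ k → k < h → (mu Ω').real {x | h < ι (-G) x} ≤
      (C1 * F / (h - k)) ^ pS d *
        (mu Ω').real {x | k < ι (-G) x} ^ ((4 * (d : ℝ) - 4 * j - 3) / (4 * d - 5))) := by
  refine ⟨H Ω' hΩ' hs ι hι f G F hG hF j hj hf, H Ω' hΩ' hs ι hι (-f) (-G) F ?_ hF j hj ?_⟩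
  · intro G'
    rw [inner_neg_left, inner_neg_left, hG G']
  · rw [eLpNorm_congr_ae (Lp.coeFn_neg f), eLpNorm_neg]
    exact hf

theorem case0 {d : ℕ} {Ω' : Set (En d)} (hΩ' : Dom Ω') (ι : VV Ω' →L[ℝ] Lp ℝ 2 (mu Ω'))
    (G : VV Ω') (P β V K C : ℝ) (hC : 0 < C) (hV : (mu Ω').real univ ≤ V)
    (hK : ∀ (C : ℝ) (Φ : ℝ → ℝ), 0 < C → Antitone Φ →
      (∀ h, 0 ≤ Φ h ∧ Φ h ≤ V) →
      (∀ k h : ℝ, 0 ≤ k → k < h → Φ h ≤ (C / (h - k)) ^ P * Φ k ^ β) → Φ (K * C) = 0)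
    (h1 : ∀ k h : ℝ, 0 ≤ k → k < h → (mu Ω').real {x | h < ι G x} ≤
      (C / (h - k)) ^ P * (mu Ω').real {x | k < ι G x} ^ β) :
    ∀ᵐ x ∂(mu Ω'), ι G x ≤ K * C := by
  haveI := mu_fin' hΩ'
  have h := hK C (fun h => (mu Ω').real {x | h < ι G x}) hC
    (fun a b hab => measureReal_mono (fun x (hx : b < ι G x) => lt_of_le_of_lt hab hx))
    (fun h => ⟨measureReal_nonneg, (measureReal_mono (subset_univ _)).trans hV⟩) h1
  have h2 : (mu Ω') {x | K * C < ι G x} = 0 := by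
    have := (measureReal_eq_zero_iff (μ := mu Ω') (s := {x | K * C < ι G x})).1 h
    exact this
  rw [ae_iff]
  simpa only [not_le] using h2

theorem case1 {d : ℕ} {Ω' : Set (En d)} (hΩ' : Dom Ω') (ι : VV Ω' →L[ℝ] Lp ℝ 2 (mu Ω'))
    (G : VV Ω') (P β V K C : ℝ) (hC : 0 < C) (hV : (mu Ω').real univ ≤ V)
    (hK : ∀ (C : ℝ) (Φ : ℝ → ℝ), 0 < C → Antitone Φ →
      (∀ h, 0 ≤ Φ h ∧ Φ h ≤ V) →
      (∀ k h : ℝ, 0 ≤ k → k < h → Φ h ≤ (C / (h - k)) ^ P * Φ k ^ β) →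
      ∀ h ≥ C, Φ h ≤ K * (C / h) ^ (P / (1 - β)))
    (h1 : ∀ k h : ℝ, 0 ≤ k → k < h → (mu Ω').real {x | h < ι G x} ≤
      (C / (h - k)) ^ P * (mu Ω').real {x | k < ι G x} ^ β) :
    ∀ h ≥ C, (mu Ω').real {x | h < ι G x} ≤ K * (C / h) ^ (P / (1 - β)) := by
  haveI := mu_fin' hΩ'
  exact hK C (fun h => (mu Ω').real {x | h < ι G x}) hC
    (fun a b hab => measureReal_mono (fun x (hx : b < ι G x) => lt_of_le_of_lt hab hx))
    (fun h => ⟨measureReal_nonneg, (measureReal_mono (subset_univ _)).trans hV⟩) h1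

theorem spq (qef : QefStmt) (lvu : LvuStmt) (stl : StlStmt) (lpb : LpbStmt) : SpqStmt := by
  intro d Ω hd hΩ
  obtain ⟨C1, hC1, H⟩ := lvu d Ω hd hΩ
  obtain ⟨V, hVdef⟩ : ∃ V : ℝ, V = (volume : Measure (En d)).real Ω := ⟨_, rfl⟩
  have hV0 : 0 ≤ V := by rw [hVdef]; exact measureReal_nonneg
  have hd' : (2 : ℝ) ≤ d := by exact_mod_cast hd
  have hd5 : (0 : ℝ) < 4 * d - 5 := by linarith
  have hP : 0 < pS d := by
    unfold pS
    positivity
  have key : ∀ j : ℕ, j + 2 ≤ d → ∃ c : ℝ, 0 < c ∧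
      ∀ Ω' : Set (En d), Dom Ω' → Ω' ⊆ Ω → ∀ ι : VV Ω' →L[ℝ] Lp ℝ 2 (mu Ω'), Emb2 Ω' ι →
      ∀ (f : Lp ℝ 2 (mu Ω')) (G : VV Ω'), (∀ G' : VV Ω', ⟪G, G'⟫_ℝ = ⟪f, ι G'⟫_ℝ) →
      eLpNorm (ι G) (qe d j) (mu Ω') ≤
        ENNReal.ofReal c * eLpNorm f (qe d (j + 2)) (mu Ω') := by
    intro j hj
    have hj' : (j : ℝ) + 2 ≤ d := by exact_mod_cast hj
    obtain ⟨β, hβ⟩ : ∃ β : ℝ, β = (4 * (d : ℝ) - 4 * j - 3) / (4 * d - 5) := ⟨_, rfl⟩
    have hβ0 : 0 < β := by rw [hβ]; exact div_pos (by linarith) hd5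
    obtain ⟨s1, s2⟩ := stl (pS d) β V hP hβ0 hV0
    obtain ⟨q0, -, -, q1, -, -⟩ := qef d (by omega)
    rcases Nat.eq_zero_or_pos j with rfl | hjp
    · have hβ1 : 1 < β := by
        rw [hβ, lt_div_iff₀ hd5]
        push_cast
        linarith
      obtain ⟨K, hK0, hK⟩ := s1 hβ1
      refine ⟨K * C1, by positivity, ?_⟩
      intro Ω' hΩ' hs ι hι f G hG
      have hV' : (mu Ω').real univ ≤ V := by rw [hVdef]; exact mu_real_le hΩ hs
      refine lim_F _ _ _ (by positivity) fun F hF hf => ?_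
      obtain ⟨l1, l2⟩ := levels H hΩ' hs ι hι f G F hG hF.le 0 hj hf
      rw [← hβ] at l1 l2
      have a1 := case0 hΩ' ι G (pS d) β V K (C1 * F) (by positivity) hV' hK l1
      have a2 := case0 hΩ' ι (-G) (pS d) β V K (C1 * F) (by positivity) hV' hK l2
      rw [q0, eLpNorm_exponent_top]
      refine eLpNormEssSup_le_of_ae_bound ?_
      filter_upwards [a1, a2, ae_neg Ω' ι G] with x x1 x2 x3
      rw [Real.norm_eq_abs, abs_le]
      rw [x3] at x2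
      constructor <;> nlinarith
    · have hj1 : (1 : ℝ) ≤ j := by exact_mod_cast hjp
      have hβ1 : β < 1 := by
        rw [hβ, div_lt_one hd5]
        linarith
      obtain ⟨K, hK0, hK⟩ := s2 hβ1
      have hp1 : (1 : ℝ) ≤ 2 * d / j := by
        rw [le_div_iff₀ (by linarith)]
        linarith
      have hpν : 2 * (d : ℝ) / j < pS d / (1 - β) := by
        have e1 : 1 - β = (4 * j - 2) / (4 * d - 5) := by
          rw [hβ]
          field_simp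
          ring
        rw [lt_div_iff₀ (by linarith), e1]
        unfold pS
        rw [div_mul_div_comm, div_lt_div_iff₀ (by positivity) hd5]
        nlinarith [mul_pos (show (0 : ℝ) < d by linarith) hd5]
      obtain ⟨C', hC'0, hC'⟩ := lpb (2 * d / j) (pS d / (1 - β)) (2 * K) V hp1 hpν
        (by positivity) hV0
      refine ⟨C' * C1, by positivity, ?_⟩
      intro Ω' hΩ' hs ι hι f G hG
      haveI := mu_fin' hΩ'
      have hV' : (mu Ω').real univ ≤ V := by rw [hVdef]; exact mu_real_le hΩ hs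
      refine lim_F _ _ _ (by positivity) fun F hF hf => ?_
      obtain ⟨l1, l2⟩ := levels H hΩ' hs ι hι f G F hG hF.le j hj hf
      rw [← hβ] at l1 l2
      have a1 := case1 hΩ' ι G (pS d) β V K (C1 * F) (by positivity) hV' hK l1
      have a2 := case1 hΩ' ι (-G) (pS d) β V K (C1 * F) (by positivity) hV' hK l2
      rw [q1 j hjp (by omega), mul_assoc]
      refine hC' (En d) (mu Ω') (ι G) (C1 * F) (by positivity) (Lp.aestronglyMeasurable _) hV' ?_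
      intro h hh
      have h3 : (mu Ω').real {x | h < |ι G x|} ≤
          (mu Ω').real {x | h < ι G x} + (mu Ω').real {x | h < ι (-G) x} := by
        refine le_trans ?_ (measureReal_union_le _ _)
        refine ENNReal.toReal_mono (measure_ne_top _ _) (measure_mono_ae ?_)
        filter_upwards [ae_neg Ω' ι G] with x hx
        intro (hx1 : h < |ι G x|)
        rcases lt_abs.1 hx1 with h4 | h4
        · exact Or.inl h4
        · refine Or.inr ?_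
          change h < ι (-G) x
          rw [hx]
          exact h4
      have := a1 h hh
      have := a2 h hh
      linarith
  choose! c hc using key
  refine ⟨∑ j ∈ Finset.range d, |c j| + 1, by positivity, ?_⟩
  intro Ω' hΩ' hs ι hι f G hG j hj
  refine ((hc j hj).2 Ω' hΩ' hs ι hι f G hG).trans ?_
  gcongr
  have h1 : |c j| ≤ ∑ j ∈ Finset.range d, |c j| :=
    Finset.single_le_sum (f := fun j => |c j|) (fun i _ => abs_nonneg _)
      (Finset.mem_range.2 (by omega))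
  linarith [le_abs_self (c j)]

end Pool.Agent.BEN.H17
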